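import Pool.Agent.MP_9b2bac_nt.Fin.Cyc

/-! From a power saving bound for the valuation of `a^(p-1) - 1` to a large primitive prime
factor of `a^n - 1`. -/

namespace Pool.Agent.MP_9b2bac_nt.Fin

open Polynomial Finset Filter

/-- The value of the `n`-th cyclotomic polynomial at `a`, as a natural number. -/
noncomputable def cyc (a n : ℕ) : ℕ := ((cyclotomic n ℤ).eval (a : ℤ)).natAbs

theorem cyc_cast (a n : ℕ) (ha : 2 ≤ a) : (cyc a n : ℝ) = (cyclotomic n ℝ).eval (a : ℝ) := by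
  have h1 : (1 : ℤ) < a := by exact_mod_cast ha
  have h := cyclotomic.eval_apply (a : ℤ) n (Int.castRingHom ℝ)
  simp only [eq_intCast, Int.cast_natCast] at h
  rw [h, cyc, Nat.cast_natAbs, abs_of_pos (cyclotomic_pos' n h1)]

theorem cyc_ne (a n : ℕ) (ha : 2 ≤ a) : cyc a n ≠ 0 := by
  have h1 : (1 : ℤ) < a := by exact_mod_cast ha
  exact Int.natAbs_ne_zero.2 (cyclotomic_pos' n h1).ne'

theorem natAbs_pow_sub (a n : ℕ) (ha : 2 ≤ a) : ((a : ℤ) ^ n - 1).natAbs = a ^ n - 1 := by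
  have h : 1 ≤ a ^ n := Nat.one_le_pow _ _ (by omega)
  have : (a : ℤ) ^ n - 1 = ((a ^ n - 1 : ℕ) : ℤ) := by push_cast [h]; ring
  rw [this, Int.natAbs_natCast]

theorem cyc_dvd (a n : ℕ) (ha : 2 ≤ a) : cyc a n ∣ a ^ n - 1 := by
  have h := eval_dvd (x := (a : ℤ)) (cyclotomic.dvd_X_pow_sub_one n ℤ)
  have h2 := Int.natAbs_dvd_natAbs.2 h
  simp only [eval_sub, eval_pow, eval_X, eval_one] at h2
  rwa [natAbs_pow_sub a n ha] at h2

theorem cyc_dvd' (a n d : ℕ) (ha : 2 ≤ a) (hd : d ∈ n.properDivisors) :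
    (a ^ d - 1) * cyc a n ∣ a ^ n - 1 := by
  have h := eval_dvd (x := (a : ℤ))
    (X_pow_sub_one_mul_cyclotomic_dvd_X_pow_sub_one_of_dvd ℤ hd)
  have h2 := Int.natAbs_dvd_natAbs.2 h
  simp only [eval_sub, eval_pow, eval_X, eval_one, eval_mul, Int.natAbs_mul] at h2
  rwa [natAbs_pow_sub a n ha, natAbs_pow_sub a d ha] at h2

theorem pow_sub_ne (a n : ℕ) (ha : 2 ≤ a) (hn : 0 < n) : a ^ n - 1 ≠ 0 := by
  have := Nat.one_lt_pow hn.ne' (by omega : 1 < a)
  omega

theorem dvd_iff_pow (a n q : ℕ) (ha : 2 ≤ a) : q ∣ a ^ n - 1 ↔ (a : ZMod q) ^ n = 1 := by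
  have h : 1 ≤ a ^ n := Nat.one_le_pow _ _ (by omega)
  rw [← ZMod.natCast_eq_zero_iff, Nat.cast_sub h, sub_eq_zero]
  push_cast
  rfl

theorem not_dvd_base (a n q : ℕ) (ha : 2 ≤ a) (hn : 0 < n) (hq : q.Prime) (h : q ∣ a ^ n - 1) :
    ¬ q ∣ a := by
  intro h2
  have h3 : q ∣ a ^ n := dvd_pow h2 hn.ne'
  have h4 : 1 ≤ a ^ n := Nat.one_le_pow _ _ (by omega)
  have h5 := (Nat.dvd_sub_iff_right h4 h3).1 h
  exact hq.one_lt.ne' (Nat.dvd_one.1 h5)

theorem val_nonprim (a n q : ℕ) (ha : 2 ≤ a) (hn : 0 < n) (hq : q.Prime) (hd : q ∣ cyc a n)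
    (ho : orderOf (a : ZMod q) ≠ n) :
    (cyc a n).factorization q ≤ (n * (a ^ 2 - 1)).factorization q := by
  have : Fact q.Prime := ⟨hq⟩
  have h1 : q ∣ a ^ n - 1 := hd.trans (cyc_dvd a n ha)
  have hqa := not_dvd_base a n q ha hn hq h1
  have hne := pow_sub_ne a n ha hn
  have h2ne := pow_sub_ne a 2 ha (by norm_num)
  rw [Nat.factorization_def _ hq, Nat.factorization_def _ hq, padicValNat.mul hn.ne' h2ne]
  rcases hq.eq_two_or_odd' with rfl | hodd
  · have hdv : cyc a n ∣ a ^ (2 * n) - 1 := by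
      refine (cyc_dvd a n ha).trans ?_
      rw [mul_comm, pow_mul]
      simpa using Nat.sub_dvd_pow_sub_pow (a ^ n) 1 2
    have hle := (padicValNat_dvd_iff_le (pow_sub_ne a (2 * n) ha (by omega))).1
      ((pow_padicValNat_dvd (p := 2) (n := cyc a n)).trans hdv)
    have hodd : 2 ∣ a - 1 := by omega
    have e1 := padicValNat.pow_two_sub_pow (x := a) (y := 1) (by omega) hodd hqa
      (n := 2 * n) (by omega) (even_two_mul n)
    have e2 := padicValNat.pow_two_sub_pow (x := a) (y := 1) (by omega) hodd hqa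
      (n := 2) (by omega) (by norm_num)
    rw [one_pow] at e1 e2
    rw [padicValNat.mul (by norm_num) hn.ne'] at e1
    omega
  · set d := orderOf (a : ZMod q) with hddef
    have hdn : d ∣ n := orderOf_dvd_of_pow_eq_one ((dvd_iff_pow a n q ha).1 h1)
    have hdpos : 0 < d := Nat.pos_of_dvd_of_pos hdn hn
    have hmem : d ∈ n.properDivisors :=
      Nat.mem_properDivisors.2 ⟨hdn, lt_of_le_of_ne (Nat.le_of_dvd hn hdn) ho⟩
    have hqd : q ∣ a ^ d - 1 := (dvd_iff_pow a d q ha).2 (pow_orderOf_eq_one _)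
    obtain ⟨k, hk⟩ := hdn
    have hk0 : k ≠ 0 := by
      rintro rfl
      omega
    have e1 := padicValNat.pow_sub_pow (p := q) hodd (x := a ^ d) (y := 1)
      (Nat.one_lt_pow hdpos.ne' (by omega)) hqd
      (fun h => hqa (hq.dvd_of_dvd_pow h)) hk0
    rw [one_pow, ← pow_mul, ← hk] at e1
    have hle := (padicValNat_dvd_iff_le hne).1
      ((pow_padicValNat_dvd (p := q) (n := (a ^ d - 1) * cyc a n)).trans (cyc_dvd' a n d ha hmem))
    rw [padicValNat.mul (pow_sub_ne a d ha hdpos) (cyc_ne a n ha)] at hle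
    have hkn : padicValNat q k ≤ padicValNat q n :=
      (padicValNat_dvd_iff_le hn.ne').1
        ((pow_padicValNat_dvd (p := q) (n := k)).trans (Dvd.intro_left d hk.symm))
    omega

theorem prim_dvd (a n q : ℕ) (hn : 0 < n) (hq : q.Prime)
    (ho : orderOf (a : ZMod q) = n) : n ∣ q - 1 := by
  have : Fact q.Prime := ⟨hq⟩
  have h0 : (a : ZMod q) ≠ 0 := by
    intro h
    have h1 := pow_orderOf_eq_one (a : ZMod q)
    rw [ho, h, zero_pow hn.ne'] at h1
    exact zero_ne_one h1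
  rw [← ho]
  exact ZMod.orderOf_dvd_card_sub_one h0

theorem val_prim (a n q : ℕ) (ha : 2 ≤ a) (hn : 0 < n) (hq : q.Prime)
    (ho : orderOf (a : ZMod q) = n) :
    (cyc a n).factorization q ≤ padicValNat q (a ^ (q - 1) - 1) := by
  have : Fact q.Prime := ⟨hq⟩
  obtain ⟨k, hk⟩ := prim_dvd a n q hn hq ho
  have hq2 := hq.two_le
  rw [Nat.factorization_def _ hq]
  refine (padicValNat_dvd_iff_le (pow_sub_ne a (q - 1) ha (by omega))).1
    ((pow_padicValNat_dvd (p := q) (n := cyc a n)).trans ((cyc_dvd a n ha).trans ?_))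
  rw [hk, pow_mul]
  simpa using Nat.sub_dvd_pow_sub_pow (a ^ n) 1 k

theorem card_le (n : ℕ) (hn : 0 < n) (x : ℝ) (hx : 0 ≤ x) (A : Finset ℕ)
    (hA : ∀ q ∈ A, 2 ≤ q ∧ n ∣ q - 1 ∧ (q : ℝ) ≤ x) : (A.card : ℝ) ≤ x / n := by
  have hsub : A ⊆ (Finset.Icc 1 ⌊x / n⌋₊).image (fun j => n * j + 1) := by
    intro q hq
    obtain ⟨h2, ⟨j, hj⟩, hle⟩ := hA q hq
    refine mem_image.2 ⟨j, Finset.mem_Icc.2 ⟨?_, ?_⟩, by omega⟩
    · rcases Nat.eq_zero_or_pos j with rfl | h
      · omega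
      · exact h
    · apply Nat.le_floor
      rw [le_div_iff₀ (by exact_mod_cast hn)]
      have : j * n ≤ q := by rw [mul_comm]; omega
      have h3 : ((j * n : ℕ) : ℝ) ≤ q := by exact_mod_cast this
      push_cast at h3
      linarith
  have h1 : A.card ≤ ⌊x / n⌋₊ := by
    calc A.card ≤ _ := card_le_card hsub
      _ ≤ (Finset.Icc 1 ⌊x / n⌋₊).card := card_image_le
      _ = _ := by simp
  calc (A.card : ℝ) ≤ (⌊x / n⌋₊ : ℝ) := by exact_mod_cast h1
    _ ≤ x / n := Nat.floor_le (by positivity)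

theorem log_cyc_le (a n : ℕ) (ha : 2 ≤ a) (hn : 0 < n) (s x : ℝ) (hs : 0 ≤ s) (hx : 1 ≤ x)
    (hv : ∀ q : ℕ, q.Prime → orderOf (a : ZMod q) = n →
      (q : ℝ) ≤ x ∧ (padicValNat q (a ^ (q - 1) - 1) : ℝ) ≤ (q : ℝ) ^ s) :
    Real.log (cyc a n) ≤ Real.log n + 2 * Real.log a + x / n * (x ^ s * Real.log x) := by
  classical
  have h2ne := pow_sub_ne a 2 ha (by norm_num)
  have hG : n * (a ^ 2 - 1) ≠ 0 := mul_ne_zero hn.ne' h2ne
  rw [Real.log_nat_eq_sum_factorization, Finsupp.sum, Nat.support_factorization,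
    ← sum_filter_add_sum_filter_not _ (fun q => orderOf (a : ZMod q) = n), add_comm]
  apply add_le_add
  · calc _ ≤ ∑ q ∈ (cyc a n).primeFactors.filter (fun q => ¬ orderOf (a : ZMod q) = n),
          ((n * (a ^ 2 - 1)).factorization (q : ℕ) : ℝ) * Real.log (q : ℕ) := by
          apply sum_le_sum
          intro q hq
          obtain ⟨hq1, hq2⟩ := mem_filter.1 hq
          apply mul_le_mul_of_nonneg_right _ (Real.log_natCast_nonneg q)
          exact_mod_cast val_nonprim a n q ha hn (Nat.prime_of_mem_primeFactors hq1)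
            (Nat.dvd_of_mem_primeFactors hq1) hq2
      _ ≤ ∑ q ∈ (n * (a ^ 2 - 1)).primeFactors,
          ((n * (a ^ 2 - 1)).factorization (q : ℕ) : ℝ) * Real.log (q : ℕ) := by
          rw [← sum_filter_ne_zero]
          apply sum_le_sum_of_subset_of_nonneg
          · intro q hq
            have hne := (mem_filter.1 hq).2
            rw [← Nat.support_factorization, Finsupp.mem_support_iff]
            intro h0
            rw [h0] at hne
            simp at hne
          · intro q _ _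
            exact mul_nonneg (Nat.cast_nonneg _) (Real.log_natCast_nonneg q)
      _ = Real.log ((n * (a ^ 2 - 1) : ℕ) : ℝ) := by
          rw [Real.log_nat_eq_sum_factorization, Finsupp.sum, Nat.support_factorization]
      _ ≤ Real.log ((n : ℝ) * (a : ℝ) ^ 2) := by
          apply Real.log_le_log (by exact_mod_cast Nat.pos_of_ne_zero hG)
          have : n * (a ^ 2 - 1) ≤ n * a ^ 2 := Nat.mul_le_mul_left _ (Nat.sub_le _ _)
          exact_mod_cast this
      _ = Real.log n + 2 * Real.log a := by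
          rw [Real.log_mul (by positivity) (by positivity), Real.log_pow]
          norm_num
  · have hlx : 0 ≤ Real.log x := Real.log_nonneg hx
    calc _ ≤ ∑ q ∈ (cyc a n).primeFactors.filter (fun q => orderOf (a : ZMod q) = n),
          x ^ s * Real.log x := by
          apply sum_le_sum
          intro q hq
          obtain ⟨hq1, hq2⟩ := mem_filter.1 hq
          have hp := Nat.prime_of_mem_primeFactors hq1
          obtain ⟨h1, h2⟩ := hv q hp hq2
          have h3 : ((cyc a n).factorization q : ℝ) ≤ x ^ s := by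
            calc ((cyc a n).factorization q : ℝ) ≤ padicValNat q (a ^ (q - 1) - 1) := by
                  exact_mod_cast val_prim a n q ha hn hp hq2
              _ ≤ (q : ℝ) ^ s := h2
              _ ≤ x ^ s := Real.rpow_le_rpow (Nat.cast_nonneg _) h1 hs
          exact mul_le_mul h3 (Real.log_le_log (by exact_mod_cast hp.pos) h1)
            (Real.log_natCast_nonneg q) (by positivity)
      _ ≤ x / n * (x ^ s * Real.log x) := by
          rw [sum_const, nsmul_eq_mul]
          apply mul_le_mul_of_nonneg_right _ (by positivity)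
          apply card_le n hn x (by linarith)
          intro q hq
          obtain ⟨hq1, hq2⟩ := mem_filter.1 hq
          have hp := Nat.prime_of_mem_primeFactors hq1
          exact ⟨hp.two_le, prim_dvd a n q hn hp hq2, (hv q hp hq2).1⟩

theorem ev_log (K e : ℝ) (he : e < 1) :
    ∀ᶠ n : ℕ in atTop, K * Real.log n ^ 2 * (n : ℝ) ^ e < n := by
  have h := (isLittleO_log_rpow_rpow_atTop (s := 1 - e) 2 (by linarith)).bound
    (c := 1 / (|K| + 1)) (by positivity)
  have h2 := tendsto_natCast_atTop_atTop (R := ℝ) |>.eventually h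
  filter_upwards [h2, eventually_ge_atTop 1] with n hn hn1
  have hpos : (0 : ℝ) < n := by exact_mod_cast hn1
  rw [Real.norm_of_nonneg (Real.rpow_nonneg (Real.log_natCast_nonneg n) _),
    Real.norm_of_nonneg (by positivity), Real.rpow_two] at hn
  have h3 : (n : ℝ) ^ (1 - e) * (n : ℝ) ^ e = n := by
    rw [← Real.rpow_add hpos]
    simp
  have h4 : (0 : ℝ) < (n : ℝ) ^ e := by positivity
  have h5 : (0 : ℝ) < (n : ℝ) ^ (1 - e) := by positivity
  have h6 : K * Real.log n ^ 2 < (n : ℝ) ^ (1 - e) := by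
    have h7 : K * Real.log n ^ 2 ≤ |K| * Real.log n ^ 2 :=
      mul_le_mul_of_nonneg_right (le_abs_self K) (sq_nonneg _)
    have h8 : |K| * Real.log n ^ 2 ≤ |K| * (1 / (|K| + 1) * (n : ℝ) ^ (1 - e)) :=
      mul_le_mul_of_nonneg_left hn (abs_nonneg K)
    have h9 : |K| * (1 / (|K| + 1) * (n : ℝ) ^ (1 - e)) < (n : ℝ) ^ (1 - e) := by
      rw [← mul_assoc]
      apply mul_lt_of_lt_one_left h5
      rw [mul_one_div, div_lt_one (by positivity)]
      linarith
    linarith
  calc K * Real.log n ^ 2 * (n : ℝ) ^ e < (n : ℝ) ^ (1 - e) * (n : ℝ) ^ e :=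
        mul_lt_mul_of_pos_right h6 h4
    _ = n := h3

theorem big_prime (a : ℕ) (ha : 2 ≤ a) (c : ℝ) (hc : 0 < c) (hc1 : c < 1)
    (hv : ∃ p0 : ℕ, ∀ p : ℕ, p.Prime → p0 ≤ p →
      (padicValNat p (a ^ (p - 1) - 1) : ℝ) ≤ (p : ℝ) ^ (1 - c))
    (t : ℝ) (ht : t * (2 - c) < 2) :
    ∃ n0 : ℕ, ∀ n ≥ n0, ∃ q : ℕ, q.Prime ∧ orderOf (a : ZMod q) = n ∧ (n : ℝ) ^ t < q := by
  obtain ⟨p0, hp0⟩ := hv
  set u := max t 1 with hu
  have hu1 : 1 ≤ u := le_max_right _ _
  have hu2 : u * (2 - c) < 2 := by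
    rcases le_total t 1 with h | h
    · rw [hu, max_eq_right h]; linarith
    · rw [hu, max_eq_left h]; exact ht
  have hla : (1 / 2 : ℝ) < Real.log a := by
    have h1 := Real.log_two_gt_d9
    have h2 : Real.log 2 ≤ Real.log a :=
      Real.log_le_log (by norm_num) (by exact_mod_cast ha)
    linarith
  have he0 : 0 ≤ u * (2 - c) - 1 := by nlinarith
  obtain ⟨n1, hn1⟩ := eventually_atTop.1
    (ev_log (6 * (u + 3 + 2 * Real.log a)) (u * (2 - c) - 1) (by linarith))
  refine ⟨max (max n1 p0) 3, fun n hn => ?_⟩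
  have hn3 : 3 ≤ n := le_trans (le_max_right _ _) hn
  have hnp : p0 ≤ n := le_trans (le_trans (le_max_right _ _) (le_max_left _ _)) hn
  have hE := hn1 n (le_trans (le_trans (le_max_left _ _) (le_max_left _ _)) hn)
  have hn0 : 0 < n := by omega
  have hnR : (3 : ℝ) ≤ n := by exact_mod_cast hn3
  have hpos : (0 : ℝ) < n := by linarith
  by_contra hcon
  push Not at hcon
  have hx : (1 : ℝ) ≤ (n : ℝ) ^ u := Real.one_le_rpow (by linarith) (by linarith)
  have hup := log_cyc_le a n ha hn0 (1 - c) ((n : ℝ) ^ u) (by linarith) hx (by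
    intro q hq ho
    refine ⟨(hcon q hq ho).trans
      (Real.rpow_le_rpow_of_exponent_le (by linarith) (le_max_left _ _)), hp0 q hq ?_⟩
    have h1 := Nat.le_of_dvd (by have := hq.two_le; omega) (prim_dvd a n q hn0 hq ho)
    omega)
  have hlow := log_cyc_ge (a : ℝ) (by exact_mod_cast ha) n hn0
  rw [← cyc_cast a n ha] at hlow
  have htot := le_totient_log n hn3
  have hl1 : (1 : ℝ) ≤ Real.log n := by
    rw [Real.le_log_iff_exp_le hpos]
    have := Real.exp_one_lt_d9
    linarith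
  have e1 : (n : ℝ) ^ u / n * (((n : ℝ) ^ u) ^ (1 - c) * Real.log ((n : ℝ) ^ u))
      = u * Real.log n * (n : ℝ) ^ (u * (2 - c) - 1) := by
    rw [Real.log_rpow hpos, ← Real.rpow_mul hpos.le, Real.rpow_sub_one hpos.ne']
    have : (n : ℝ) ^ (u * (2 - c)) = (n : ℝ) ^ u * (n : ℝ) ^ (u * (1 - c)) := by
      rw [← Real.rpow_add hpos]
      congr 1
      ring
    rw [this]
    ring
  rw [e1] at hup
  set W := (n : ℝ) ^ (u * (2 - c) - 1) with hW
  have hW1 : 1 ≤ W := Real.one_le_rpow (by linarith) he0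
  set L := Real.log n with hL
  set T : ℝ := (n.totient : ℝ) with hT
  have hT0 : 0 ≤ T := Nat.cast_nonneg _
  have hLW : 1 ≤ L * W := by nlinarith
  have hLW2 : L ≤ L * W := by nlinarith
  have h1 : T * (1 / 2) ≤ (u + 3 + 2 * Real.log a) * (L * W) := by
    have h2 : T * (1 / 2) ≤ T * Real.log a := mul_le_mul_of_nonneg_left hla.le hT0
    have h3 : Real.log a ≤ Real.log a * (L * W) := by nlinarith
    nlinarith
  have h4 : 3 * L * T ≤ 6 * (u + 3 + 2 * Real.log a) * L ^ 2 * W := by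
    have h5 := mul_le_mul_of_nonneg_left h1 (by linarith : 0 ≤ 6 * L)
    nlinarith
  linarith

/-- A prime at which `a` has order `n` divides `a^n - 1`. -/
theorem dvd_of_order (a n q : ℕ) (ha : 2 ≤ a) (ho : orderOf (a : ZMod q) = n) :
    q ∣ a ^ n - 1 :=
  (dvd_iff_pow a n q ha).2 (ho ▸ pow_orderOf_eq_one _)

/-- A prime at which `a` has order `2s` divides `a^s + 1`. -/
theorem dvd_add_of_order (a s q : ℕ) (hs : 0 < s) (hq : q.Prime)
    (ho : orderOf (a : ZMod q) = 2 * s) : q ∣ a ^ s + 1 := by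
  have : Fact q.Prime := ⟨hq⟩
  have h1 : ((a : ZMod q) ^ s) ^ 2 = 1 := by
    rw [← pow_mul, mul_comm, ← ho]
    exact pow_orderOf_eq_one _
  rcases sq_eq_one_iff.1 h1 with h | h
  · have := Nat.le_of_dvd hs (orderOf_dvd_of_pow_eq_one h)
    omega
  · rw [← ZMod.natCast_eq_zero_iff]
    push_cast
    rw [h]
    ring

end Pool.Agent.MP_9b2bac_nt.Fin
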