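import Mathlib

/-! Lower bound for cyclotomic values and for the totient. -/

namespace Pool.Agent.MP_9b2bac_nt.Fin

open Polynomial Finset

theorem prod_le_card (S : Finset ℕ) (hS : ∀ p ∈ S, 2 ≤ p) :
    ∏ p ∈ S, p ≤ (S.card + 1) * ∏ p ∈ S, (p - 1) := by
  induction S using Finset.induction_on_max with
  | empty => simp
  | insert m s hm ih =>
    have hms : m ∉ s := fun h => lt_irrefl _ (hm m h)
    have ih' := ih (fun p hp => hS p (mem_insert_of_mem hp))
    have hm2 : 2 ≤ m := hS m (mem_insert_self _ _)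
    have hsub : s ⊆ Finset.Ico 2 m := fun p hp =>
      Finset.mem_Ico.2 ⟨hS p (mem_insert_of_mem hp), hm p hp⟩
    have hc : s.card ≤ m - 2 := by simpa using card_le_card hsub
    rw [prod_insert hms, prod_insert hms, card_insert_of_notMem hms]
    obtain ⟨k, rfl⟩ : ∃ k, m = k + 2 := ⟨m - 2, by omega⟩
    have hc' : s.card ≤ k := by omega
    have e1 : k + 2 - 1 = k + 1 := by omega
    rw [e1]
    calc (k + 2) * ∏ p ∈ s, p ≤ (k + 2) * ((s.card + 1) * ∏ p ∈ s, (p - 1)) :=
          Nat.mul_le_mul_left _ ih'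
      _ = ((k + 2) * (s.card + 1)) * ∏ p ∈ s, (p - 1) := by ring
      _ ≤ ((s.card + 1 + 1) * (k + 1)) * ∏ p ∈ s, (p - 1) := by
          apply Nat.mul_le_mul_right
          nlinarith
      _ = (s.card + 1 + 1) * ((k + 1) * ∏ p ∈ s, (p - 1)) := by ring

theorem le_totient_mul (n : ℕ) :
    n ≤ n.totient * (n.primeFactors.card + 1) := by
  have h1 := Nat.totient_mul_prod_primeFactors n
  have h2 := prod_le_card n.primeFactors (fun p hp => (Nat.prime_of_mem_primeFactors hp).two_le)
  have h3 : 0 < ∏ p ∈ n.primeFactors, (p - 1) := by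
    apply Finset.prod_pos
    intro p hp
    have := (Nat.prime_of_mem_primeFactors hp).two_le
    omega
  apply Nat.le_of_mul_le_mul_right _ h3
  calc n * ∏ p ∈ n.primeFactors, (p - 1) = n.totient * ∏ p ∈ n.primeFactors, p := h1.symm
    _ ≤ n.totient * ((n.primeFactors.card + 1) * ∏ p ∈ n.primeFactors, (p - 1)) :=
        Nat.mul_le_mul_left _ h2
    _ = _ := by ring

theorem two_pow_card_le (n : ℕ) (hn : 0 < n) : 2 ^ n.primeFactors.card ≤ n := by
  calc 2 ^ n.primeFactors.card ≤ ∏ p ∈ n.primeFactors, p :=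
        Finset.pow_card_le_prod _ _ _ (fun p hp => (Nat.prime_of_mem_primeFactors hp).two_le)
    _ ≤ n := Nat.le_of_dvd hn (Nat.prod_primeFactors_dvd n)

/-- `n ≤ 3 φ(n) log n` for `n ≥ 3`. -/
theorem le_totient_log (n : ℕ) (hn : 3 ≤ n) :
    (n : ℝ) ≤ 3 * Real.log n * n.totient := by
  have h0 : 0 < n := by omega
  have h1 : (n : ℝ) ≤ n.totient * (n.primeFactors.card + 1) := by
    exact_mod_cast le_totient_mul n
  have h2 : (2 : ℝ) ^ n.primeFactors.card ≤ n := by exact_mod_cast two_pow_card_le n h0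
  have h3 : (n.primeFactors.card : ℝ) * Real.log 2 ≤ Real.log n := by
    rw [← Real.log_pow]
    exact Real.log_le_log (by positivity) h2
  have h4 : (1 / 2 : ℝ) < Real.log 2 := by
    have := Real.log_two_gt_d9
    linarith
  have h5 : (1 : ℝ) ≤ Real.log n := by
    have h3n : (3 : ℝ) ≤ n := by exact_mod_cast hn
    rw [Real.le_log_iff_exp_le (by linarith)]
    have := Real.exp_one_lt_d9
    linarith
  have h6 : (0 : ℝ) ≤ n.primeFactors.card := Nat.cast_nonneg _
  have h7 : (n.primeFactors.card : ℝ) + 1 ≤ 3 * Real.log n := by nlinarith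
  have h8 : (0 : ℝ) ≤ n.totient := Nat.cast_nonneg _
  nlinarith

theorem abs_log_le (a : ℝ) (ha : 2 ≤ a) (e : ℕ) (he : 0 < e) :
    |Real.log (a ^ e - 1) - e * Real.log a| ≤ 2 * (1 / 2 : ℝ) ^ e := by
  have h2 : (2 : ℝ) ^ e ≤ a ^ e := pow_le_pow_left₀ (by norm_num) ha e
  have h22 : (2 : ℝ) ≤ 2 ^ e := by
    calc (2 : ℝ) = 2 ^ 1 := by norm_num
      _ ≤ 2 ^ e := pow_le_pow_right₀ (by norm_num) he
  have hA : (2 : ℝ) ≤ a ^ e := h22.trans h2
  set A := a ^ e with hAdef
  have hl : (e : ℝ) * Real.log a = Real.log A := by rw [hAdef, Real.log_pow]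
  rw [hl, abs_sub_comm, abs_of_nonneg]
  · rw [← Real.log_div (by linarith) (by linarith)]
    have h3 : Real.log (A / (A - 1)) ≤ A / (A - 1) - 1 :=
      Real.log_le_sub_one_of_pos (div_pos (by linarith) (by linarith))
    have h4 : A / (A - 1) - 1 = 1 / (A - 1) := by
      have : A - 1 ≠ 0 := by linarith
      field_simp
      ring
    have h5 : 1 / (A - 1) ≤ 2 * (1 / 2 : ℝ) ^ e := by
      rw [one_div_pow, mul_one_div, div_le_div_iff₀ (by linarith) (by positivity)]
      linarith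
    linarith
  · have := Real.log_le_log (by linarith : 0 < A - 1) (by linarith : A - 1 ≤ A)
    linarith

theorem sum_half_le (S : Finset ℕ) (hS : ∀ e ∈ S, 0 < e) : ∑ e ∈ S, (1 / 2 : ℝ) ^ e ≤ 1 := by
  have h0 : 0 ∉ S := fun h => lt_irrefl _ (hS 0 h)
  have h1 : ∑ e ∈ insert 0 S, (1 / 2 : ℝ) ^ e ≤ ∑' e : ℕ, (1 / 2 : ℝ) ^ e :=
    Summable.sum_le_tsum _ (fun _ _ => by positivity) summable_geometric_two
  rw [tsum_geometric_two, sum_insert h0] at h1
  simp only [pow_zero] at h1
  linarith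

theorem log_cyc_ge (a : ℝ) (ha : 2 ≤ a) (n : ℕ) (hn : 0 < n) :
    n.totient * Real.log a - 2 ≤ Real.log ((cyclotomic n ℝ).eval a) := by
  have key : ∀ m > 0, ∑ i ∈ Nat.divisors m,
      (Real.log ((cyclotomic i ℝ).eval a) - i.totient * Real.log a)
        = Real.log (a ^ m - 1) - m * Real.log a := by
    intro m hm
    rw [sum_sub_distrib, ← sum_mul, ← Real.log_prod]
    · congr 1
      · rw [← eval_prod, prod_cyclotomic_eq_X_pow_sub_one hm]
        simp
      · congr 1
        exact_mod_cast Nat.sum_totient m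
    · intro i _
      exact (cyclotomic_pos' i (by linarith : (1 : ℝ) < a)).ne'
  have h := ArithmeticFunction.sum_eq_iff_sum_mul_moebius_eq.1 key n hn
  have hb : |∑ x ∈ n.divisorsAntidiagonal, (ArithmeticFunction.moebius x.fst : ℝ) *
      (Real.log (a ^ x.snd - 1) - x.snd * Real.log a)| ≤ 2 := by
    calc _ ≤ ∑ x ∈ n.divisorsAntidiagonal, |(ArithmeticFunction.moebius x.fst : ℝ) *
          (Real.log (a ^ x.snd - 1) - x.snd * Real.log a)| := abs_sum_le_sum_abs _ _
      _ ≤ ∑ x ∈ n.divisorsAntidiagonal, 2 * (1 / 2 : ℝ) ^ x.snd := by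
          apply sum_le_sum
          intro x hx
          rw [abs_mul]
          have h1 : |(ArithmeticFunction.moebius x.fst : ℝ)| ≤ 1 := by
            exact_mod_cast ArithmeticFunction.abs_moebius_le_one
          have h2 := abs_log_le a ha x.snd
            (Nat.pos_of_mem_divisors (Nat.snd_mem_divisors_of_mem_antidiagonal hx))
          calc _ ≤ 1 * (2 * (1 / 2 : ℝ) ^ x.snd) :=
                mul_le_mul h1 h2 (abs_nonneg _) (by norm_num)
            _ = _ := one_mul _
      _ = 2 * ∑ e ∈ n.divisors, (1 / 2 : ℝ) ^ e := by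
          rw [← mul_sum, Nat.sum_divisorsAntidiagonal' (fun _ e => (1 / 2 : ℝ) ^ e)]
      _ ≤ 2 := by
          have := sum_half_le n.divisors (fun e he => Nat.pos_of_mem_divisors he)
          linarith
  rw [h] at hb
  have := (abs_le.1 hb).1
  linarith

end Pool.Agent.MP_9b2bac_nt.Fin
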